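import Pool.Agent.LeoC.UpStmts

/-! Squad leoc, module BOX: integers in a product of discs. -/

set_option autoImplicit false

open NumberField NumberField.InfinitePlace IsDedekindDomain Module MeasureTheory Filter Topology

namespace Pool.Agent.LeoC.H21

/-- integers with bounded conjugates -/
lemma finite_le (k : Type) [Field k] [NumberField k] (R : ℝ) :
    {x : 𝓞 k | ∀ v : InfinitePlace k, ‖v.embedding (x : k)‖ ≤ R}.Finite := by
  have h := Embeddings.finite_of_norm_le k ℂ R
  refine Set.Finite.of_finite_image (f := fun x : 𝓞 k => (x : k)) (h.subset ?_)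
    (RingOfIntegers.coe_injective.injOn)
  rintro _ ⟨x, hx, rfl⟩
  refine ⟨x.isIntegral_coe, fun φ => ?_⟩
  have h1 := hx (InfinitePlace.mk φ)
  rw [InfinitePlace.norm_embedding_eq, InfinitePlace.apply] at h1
  exact h1

lemma im_real {k : Type} [Field k] {v : InfinitePlace k} (h : IsReal v) (x : k) :
    (v.embedding x).im = 0 := by
  have hr := isReal_iff.1 h
  rw [← hr.coe_embedding_apply, Complex.ofReal_im]

/-- BOX (no hypotheses) -/
theorem box : BoxStmt := by
  classical
  intro k _ _
  have hF := finite_le k 2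
  set C : ℕ := hF.toFinset.card with hC
  have hC0 : 0 < C := by
    apply Finset.card_pos.2
    refine ⟨0, ?_⟩
    rw [Set.Finite.mem_toFinset]
    intro s
    simp
  refine ⟨(C : ℝ) * ∏ v : InfinitePlace k, (2 : ℝ) ^ v.mult,
    mul_pos (by exact_mod_cast hC0) (Finset.prod_pos fun v _ => by positivity), ?_⟩
  intro α L hL
  set X : Set (𝓞 k) := {x : 𝓞 k | ∀ v : InfinitePlace k, ‖v.embedding (x : k) - α v‖ ≤ L v} with hX
  have hfin : X.Finite := by
    obtain ⟨R, hR⟩ : ∃ R : ℝ, ∀ v : InfinitePlace k, ‖α v‖ + L v ≤ R :=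
      ⟨∑ v, (‖α v‖ + L v), fun v => Finset.single_le_sum (f := fun v => ‖α v‖ + L v)
        (fun i _ => add_nonneg (norm_nonneg _) (hL i)) (Finset.mem_univ v)⟩
    refine (finite_le k R).subset fun x hx v => ?_
    have h1 := hx v
    have h2 := norm_add_le (v.embedding (x : k) - α v) (α v)
    rw [sub_add_cancel] at h2
    linarith [hR v]
  refine ⟨hfin, ?_⟩
  rw [Set.ncard_eq_toFinset_card X hfin]
  set f : 𝓞 k → InfinitePlace k → ℕ × ℕ := fun x v =>
    (⌊(v.embedding (x : k) - α v).re + L v⌋₊,
      if IsReal v then 0 else ⌊(v.embedding (x : k) - α v).im + L v⌋₊) with hf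
  have hre : ∀ x ∈ X, ∀ v, 0 ≤ (v.embedding (x : k) - α v).re + L v ∧
      (v.embedding (x : k) - α v).re + L v ≤ 2 * L v := by
    intro x hx v
    have h1 := (Complex.abs_re_le_norm (v.embedding (x : k) - α v)).trans (hx v)
    rw [abs_le] at h1
    constructor <;> linarith [h1.1, h1.2]
  have him : ∀ x ∈ X, ∀ v, 0 ≤ (v.embedding (x : k) - α v).im + L v ∧
      (v.embedding (x : k) - α v).im + L v ≤ 2 * L v := by
    intro x hx v
    have h1 := (Complex.abs_im_le_norm (v.embedding (x : k) - α v)).trans (hx v)
    rw [abs_le] at h1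
    constructor <;> linarith [h1.1, h1.2]
  have hfl : ∀ a b : ℝ, 0 ≤ a → 0 ≤ b → ⌊a⌋₊ = ⌊b⌋₊ → |a - b| ≤ 1 := by
    intro a b ha hb hab
    have h4 := Nat.floor_le ha
    have h5 := Nat.floor_le hb
    have h6 := Nat.lt_floor_add_one a
    have h7 := Nat.lt_floor_add_one b
    rw [hab] at h4 h6
    rw [abs_le]
    constructor <;> linarith
  have hcard : hfin.toFinset.card ≤ C * (hfin.toFinset.image f).card := by
    refine Finset.card_le_mul_card_image _ _ ?_
    intro g hg
    obtain ⟨x', hx', hx'g⟩ := Finset.mem_image.1 hg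
    rw [Set.Finite.mem_toFinset] at hx'
    refine Finset.card_le_card_of_injOn (fun x => x - x') ?_ ?_
    · intro x hx
      rw [Finset.mem_coe, Finset.mem_filter, Set.Finite.mem_toFinset] at hx
      rw [Finset.mem_coe, Set.Finite.mem_toFinset]
      intro v
      have h0 := congrFun (hx.2.trans hx'g.symm) v
      have h1 := congrArg Prod.fst h0
      have h2 := congrArg Prod.snd h0
      have h8 : v.embedding ((x - x' : 𝓞 k) : k) =
          v.embedding (x : k) - v.embedding (x' : k) := by
        have h80 : ((x - x' : 𝓞 k) : k) = (x : k) - (x' : k) := map_sub (algebraMap (𝓞 k) k) x x'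
        rw [h80, map_sub]
      have h3 := hfl _ _ (hre x hx.1 v).1 (hre x' hx' v).1 h1
      have h4 : |(v.embedding (x : k) - v.embedding (x' : k)).im| ≤ 1 := by
        by_cases hv : IsReal v
        · rw [Complex.sub_im, im_real hv, im_real hv, sub_zero, abs_zero]
          exact zero_le_one
        · simp only [hf, if_neg hv] at h2
          have h5 := hfl _ _ (him x hx.1 v).1 (him x' hx' v).1 h2
          have h6 : (v.embedding (x : k) - α v).im + L v -
              ((v.embedding (x' : k) - α v).im + L v) =
              (v.embedding (x : k) - v.embedding (x' : k)).im := by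
            simp only [Complex.sub_im]
            ring
          rwa [h6] at h5
      have h6 : (v.embedding (x : k) - α v).re + L v -
          ((v.embedding (x' : k) - α v).re + L v) =
          (v.embedding (x : k) - v.embedding (x' : k)).re := by
        simp only [Complex.sub_re]
        ring
      rw [h6] at h3
      rw [h8]
      exact (Complex.norm_le_abs_re_add_abs_im _).trans (by linarith)
    · intro x _ y _ hxy
      exact sub_left_injective hxy
  have hsub : hfin.toFinset.image f ⊆ Fintype.piFinset fun v =>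
      Finset.range (⌊2 * L v⌋₊ + 1) ×ˢ (if IsReal v then {0} else
        Finset.range (⌊2 * L v⌋₊ + 1)) := by
    intro g hg
    obtain ⟨x, hx, rfl⟩ := Finset.mem_image.1 hg
    rw [Set.Finite.mem_toFinset] at hx
    rw [Fintype.mem_piFinset]
    intro v
    rw [Finset.mem_product]
    constructor
    · rw [Finset.mem_range, Nat.lt_succ_iff]
      exact Nat.floor_le_floor (hre x hx v).2
    · by_cases hv : IsReal v
      · simp only [hf, if_pos hv, Finset.mem_singleton]
      · simp only [hf, if_neg hv, Finset.mem_range, Nat.lt_succ_iff]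
        exact Nat.floor_le_floor (him x hx v).2
  have hc2 := Finset.card_le_card hsub
  rw [Fintype.card_piFinset] at hc2
  have h9 : (hfin.toFinset.card : ℝ) ≤
      C * ∏ v : InfinitePlace k, ((⌊2 * L v⌋₊ + 1 : ℕ) : ℝ) ^ v.mult := by
    have h10 : hfin.toFinset.card ≤ C * ∏ v : InfinitePlace k, (⌊2 * L v⌋₊ + 1) ^ v.mult := by
      refine hcard.trans (Nat.mul_le_mul_left _ ?_)
      refine hc2.trans (le_of_eq ?_)
      refine Finset.prod_congr rfl fun v _ => ?_
      rw [Finset.card_product, Finset.card_range, mult]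
      split_ifs
      · rw [Finset.card_singleton, mul_one, pow_one]
      · rw [Finset.card_range, pow_two]
    exact_mod_cast h10
  refine h9.trans ?_
  rw [mul_assoc]
  refine mul_le_mul_of_nonneg_left ?_ (Nat.cast_nonneg _)
  rw [nr, ← Finset.prod_mul_distrib]
  refine Finset.prod_le_prod (fun v _ => pow_nonneg (Nat.cast_nonneg _) _) fun v _ => ?_
  rw [← mul_pow]
  refine pow_le_pow_left₀ (Nat.cast_nonneg _) ?_ _
  push_cast
  have h1 := hL v
  have := Nat.floor_le (mul_nonneg zero_le_two h1)
  linarith

end Pool.Agent.LeoC.H21
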