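import Pool.Agent.LeoC.CountStmts

/-!
# Squad leoc: module EXC: few m have a form with a short vector
-/

set_option autoImplicit false

open NumberField NumberField.InfinitePlace NumberField.mixedEmbedding IsDedekindDomain Module
  MeasureTheory
open Pool.Agent.LeoK Pool.Agent.LeoG

open scoped Classical

namespace Pool.Agent.LeoC.H21

open Pool.Agent.LeoC

theorem norm_ev_le {k : Type} [Field k] [NumberField k] (v : InfinitePlace k) (y : MS k) :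
    ‖ev v y‖ ≤ ‖y‖ := by
  unfold ev
  split_ifs with h
  · rw [Complex.norm_real]
    exact (norm_le_pi_norm y.1 ⟨v, h⟩).trans (norm_fst_le y)
  · exact (norm_le_pi_norm y.2 _).trans (norm_snd_le y)

theorem me_smul {k : Type} [Field k] [NumberField k] (n : ℕ) (m : k) :
    mixedEmbedding k ((n : k) * m) = (n : ℝ) • mixedEmbedding k m := by
  rw [map_mul, map_natCast]
  apply Prod.ext
  · funext w
    rw [Prod.fst_mul, Pi.mul_apply, Prod.smul_fst, Pi.smul_apply, smul_eq_mul, Prod.fst_natCast,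
      Pi.natCast_apply]
  · funext w
    rw [Prod.snd_mul, Pi.mul_apply, Prod.smul_snd, Pi.smul_apply, Complex.real_smul,
      Prod.snd_natCast, Pi.natCast_apply, Complex.ofReal_natCast]

theorem exc (hSMV : SmvStmt) (hNRF : NrfStmt) (hCRU : CruStmt) (hCON : ConStmt)
    (hEVS : EvsStmt) : ExcStmt := by
  classical
  intro k _ _ Φ N
  obtain ⟨N₀, A₁, hN₀, hA₁, hsmv⟩ := hSMV k
  obtain ⟨-, -, -, -, hnr, -⟩ := hCON k Φ
  obtain ⟨-, -, hev, -⟩ := hEVS k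
  obtain ⟨R, hR⟩ : ∃ R : ℝ, 0 < R ∧ ∀ y ∈ FD k, ∀ v : InfinitePlace k, ‖ev v y‖ ≤ R := by
    have hb := ZSpan.fundamentalDomain_isBounded (latticeBasis k)
    obtain ⟨R, hR⟩ := hb.exists_norm_le
    refine ⟨max R 1, by positivity, fun x hx s => ?_⟩
    exact ((norm_ev_le s x).trans (hR x hx)).trans (le_max_left _ _)
  obtain ⟨C, hC, hcru⟩ := hCRU k Φ N R A₁ hR.1 hA₁
  have hN : (0 : ℝ) < (N₀ : ℝ) := by exact_mod_cast hN₀
  set n₀ : ℕ := N₀ ^ 6 with hn₀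
  have hn₀p : 0 < n₀ := pow_pos hN₀ 6
  have hn₀R : (0 : ℝ) < (n₀ : ℝ) := by exact_mod_cast hn₀p
  refine ⟨C * A₁ * (n₀ : ℝ) ^ finrank ℚ k, by positivity, fun δ Z hδ hδ1 hZ => ?_⟩
  set Z' : ℝ := (n₀ : ℝ) ^ finrank ℚ k * Z with hZ'
  have hN1 : (1 : ℝ) ≤ (n₀ : ℝ) := by exact_mod_cast hn₀p
  have hZ'1 : 1 ≤ Z' := by
    have h1 : (1 : ℝ) ≤ (n₀ : ℝ) ^ finrank ℚ k := one_le_pow₀ hN1
    calc (1 : ℝ) = 1 * 1 := by ring
      _ ≤ _ := mul_le_mul h1 hZ zero_le_one (by positivity)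
  obtain ⟨hfin, hcard⟩ := hcru Z' (A₁ * δ) hZ'1 (by positivity) (by nlinarith)
  set V : Set (Q4 (𝓞 k)) :=
    {g : Q4 (𝓞 k) | CReg Φ N {y | ∀ v, ‖ev v y‖ ≤ R} Z' (A₁ * δ) g} with hV
  set M : Set (𝓞 k) := {m : 𝓞 k | Sgn N (mixedEmbedding k (m : k)) ∧
      av (mixedEmbedding k (m : k)) ∈ Φ.F ∧ nr (av (mixedEmbedding k (m : k))) ≤ Z ∧
      ∃ (g : Q4 (𝓞 k)) (X Y : 𝓞 k), mm g = m ∧ GIrr g ∧ (X ≠ 0 ∨ Y ≠ 0) ∧
        nr (hk g X Y) < δ} with hM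
  have hme : ∀ m : 𝓞 k, mixedEmbedding k (((N₀ : 𝓞 k) ^ 6 * m : 𝓞 k) : k) =
      (n₀ : ℝ) • mixedEmbedding k (m : k) := by
    intro m
    rw [← me_smul]
    congr 1
    push_cast [hn₀]
    rfl
  have hav : ∀ y : MS k, av ((n₀ : ℝ) • y) = (n₀ : ℝ) • av y := by
    intro y
    funext v
    show ‖ev v ((n₀ : ℝ) • y)‖ = (n₀ : ℝ) * ‖ev v y‖
    rw [hev, norm_mul, Complex.norm_real, Real.norm_of_nonneg hn₀R.le]
  have key : ∀ m ∈ M, ∃ w ∈ V, mm w = (N₀ : 𝓞 k) ^ 6 * m := by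
    rintro m ⟨hmS, hmF, hmZ, g, X, Y, rfl, hirr, hXY, hlt⟩
    have hm0 : mm g ≠ 0 := by
      intro h0
      obtain ⟨v⟩ := (inferInstance : Nonempty (InfinitePlace k))
      have h1 := Φ.pos _ hmF v
      rw [h0] at h1
      have h2 : ev v (mixedEmbedding k ((0 : 𝓞 k) : k)) = 0 := by
        have h3 := hev v 0 (mixedEmbedding k ((0 : 𝓞 k) : k))
        have h4 : ((0 : 𝓞 k) : k) = 0 := map_zero (algebraMap (𝓞 k) k)
        rw [h4, map_zero] at h3 ⊢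
        rw [smul_zero] at h3
        simpa using h3
      have h5 : av (mixedEmbedding k ((0 : 𝓞 k) : k)) v = 0 := by
        show ‖ev v (mixedEmbedding k ((0 : 𝓞 k) : k))‖ = 0
        rw [h2, norm_zero]
      rw [h5] at h1
      exact lt_irrefl _ h1
    obtain ⟨w, hw1, hw2, hw4⟩ := hsmv g X Y hirr hm0 hXY
    have hw0 : mm w ≠ 0 := by
      rw [hw1]
      refine mul_ne_zero (pow_ne_zero _ ?_) hm0
      exact_mod_cast hN₀.ne'
    obtain ⟨u, hu1, hu2, hu3, hu4, hu5⟩ := hNRF k Φ w hw2 hw0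
    have huM : mm u = (N₀ : 𝓞 k) ^ 6 * mm g := hu1.trans hw1
    have hmu : mixedEmbedding k ((mm u : 𝓞 k) : k) =
        (n₀ : ℝ) • mixedEmbedding k ((mm g : 𝓞 k) : k) := by
      rw [huM]
      exact hme _
    refine ⟨u, ⟨hu2, fun v => hR.2 _ hu3 v, ?_, ?_, hu4, ?_, ?_⟩, huM⟩
    · rw [hmu]
      refine ⟨fun w => ⟨fun hw => ?_, fun hw => ?_⟩, fun w => ?_⟩
      · show (n₀ : ℝ) * _ < 0
        exact mul_neg_of_pos_of_neg hn₀R ((hmS.1 w).1 hw)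
      · show 0 < (n₀ : ℝ) * _
        exact mul_pos hn₀R ((hmS.1 w).2 hw)
      · show (n₀ : ℝ) • _ ≠ (0 : ℂ)
        exact smul_ne_zero hn₀R.ne' (hmS.2 w)
    · rw [hmu, hav]
      exact Φ.scal _ hmF _ hn₀R
    · rw [hmu, hav, hnr]
      exact mul_le_mul_of_nonneg_left hmZ (by positivity)
    · rw [hu5]
      exact hw4.trans (mul_le_mul_of_nonneg_left hlt.le hA₁.le)
  choose! g hg1 hg2 using key
  have hinj : Set.InjOn g M := by
    intro m hm m' hm' h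
    have h1 := hg2 m hm
    have h2 := hg2 m' hm'
    rw [h, h2] at h1
    have hne : (N₀ : 𝓞 k) ^ 6 ≠ 0 := pow_ne_zero _ (by exact_mod_cast hN₀.ne')
    exact (mul_left_cancel₀ hne h1).symm
  have h1 : M.ncard ≤ V.ncard := Set.ncard_le_ncard_of_injOn g hg1 hinj hfin
  have h2 : (M.ncard : ℝ) ≤ (V.ncard : ℝ) := by exact_mod_cast h1
  refine h2.trans (hcard.trans (le_of_eq ?_))
  rw [hZ']
  ring

end Pool.Agent.LeoC.H21
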